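import Mathlib
import Pool.Agent.Helper227.RD.SI
import Pool.Agent.Helper67.BN.Tools
import Pool.Agent.Helper446.Comp

/-!
The halting degree `0'` is the degree of topological categoricity of the countable discrete space.
-/

set_option autoImplicit false

open Filter Topology Encodable
open Pool.Agent.Helper227 (chi pre S1 SI)

namespace Pool.Agent.Results.MP_55a818_lc.DiscreteSpace

/-! ### Definitions -/

/-- A computable metric space: a metric space with a dense sequence `c 0, c 1, ...` whose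
distances are computable reals, uniformly. -/
structure CMS where
  /-- the points -/
  pt : Type
  /-- the metric -/
  [met : MetricSpace pt]
  /-- the dense sequence -/
  c : ℕ → pt
  dense : DenseRange c
  comp : ∃ D : ℕ × ℕ × ℕ → ℕ, Computable D ∧
    ∀ i j k, |dist (c i) (c j) - (D (i, j, k) : ℝ) / 2 ^ k| ≤ 1 / 2 ^ k

attribute [instance] CMS.met

/-- The completion. -/
abbrev CMS.bar (M : CMS) : Type := UniformSpace.Completion M.pt

/-- `p` names the point `x` of the completion: the points `c (p 0), c (p 1), ...` form a fast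
Cauchy sequence with limit `x`. -/
def IsName (M : CMS) (p : ℕ → ℕ) (x : M.bar) : Prop :=
  (∀ i j, i ≤ j → dist (M.c (p i)) (M.c (p j)) ≤ 1 / 2 ^ i) ∧
    Tendsto (fun n => (M.c (p n) : M.bar)) atTop (𝓝 x)

/-- `F` is `B`-computable: some `B`-computable machine transforms names of points into names of
their images. -/
def CompMap (B : ℕ → Bool) (M N : CMS) (F : M.bar → N.bar) : Prop :=
  ∃ Φ : List ℕ × ℕ → Option ℕ, ComputableIn {chi B} Φ ∧
    ∀ (x : M.bar) (p : ℕ → ℕ), IsName M p x → ∃ q : ℕ → ℕ, IsName N q (F x) ∧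
      ∀ n, ∃ k, Φ ((List.range k).map p, n) = some (q n) ∧
        ∀ j < k, Φ ((List.range j).map p, n) = none

/-- `X` is `B`-categorical. -/
def Categorical (B : ℕ → Bool) (X : Type) [TopologicalSpace X] : Prop :=
  ∀ M N : CMS, Nonempty (M.bar ≃ₜ X) → Nonempty (N.bar ≃ₜ X) →
    ∃ F : M.bar ≃ₜ N.bar, CompMap B M N F

/-- `X` is a computable Polish space. -/
def IsComputablePolish (X : Type) [TopologicalSpace X] : Prop :=
  ∃ M : CMS, Nonempty (M.bar ≃ₜ X)

/-- The Turing degree of `A` is the degree of topological categoricity of `X`. -/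
def IsDegreeOfCategoricity (A : ℕ → Bool) (X : Type) [TopologicalSpace X] : Prop :=
  Categorical A X ∧ ∀ B : ℕ → Bool, Categorical B X → TuringReducible (chi A) (chi B)

/-- The halting set. -/
noncomputable def halt (n : ℕ) : Bool :=
  open Classical in decide ((Nat.Partrec.Code.eval (Denumerable.ofNat Nat.Partrec.Code n.unpair.1)
    n.unpair.2).Dom)

/-! ### The halting set -/

theorem halt_re : REPred fun n => halt n = true := by
  have h : Partrec fun n : ℕ => Nat.Partrec.Code.eval
      (Denumerable.ofNat Nat.Partrec.Code n.unpair.1) n.unpair.2 := by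
    have h1 := Nat.Partrec.Code.eval_part
    exact h1.comp ((Computable.ofNat _).comp (Computable.fst.comp Computable.unpair))
      (Computable.snd.comp Computable.unpair)
  refine h.dom_re.of_eq fun n => ?_
  simp [halt]

theorem halt_not_computable : ¬ Computable halt := by
  intro h
  have h1 : ComputablePred fun c : Nat.Partrec.Code => (c.eval 0).Dom := by
    classical
    refine ⟨inferInstance, ?_⟩
    have h2 : Computable fun c : Nat.Partrec.Code => halt (Nat.pair (encode c) 0) :=
      h.comp (Primrec₂.natPair.to_comp.comp Computable.encode (Computable.const 0))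
    refine h2.of_eq fun c => ?_
    simp [halt]
  exact ComputablePred.halting_problem 0 h1

theorem halt_neg {α : Type} [Primcodable α] {p : α → Prop} (hp : S1 p) :
    SI halt fun a => ¬ p a := by
  obtain ⟨c, hc⟩ := Nat.Partrec.Code.exists_code.1 hp.re
  have h1 : SI halt fun a : α => halt (Nat.pair (encode c) (encode a)) = false :=
    SI.comp (f := fun a : α => (Nat.pair (encode c) (encode a), false)) SI.query
      ((Primrec₂.natPair.comp (Primrec.const _) Primrec.encode).pair (Primrec.const false))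
  refine h1.of_eq fun a => ?_
  simp [halt, hc, Part.assert]

/-! ### Machines from Sigma-one relations -/

theorem ci_pre (B : ℕ → Bool) : ComputableIn {chi B} (pre B) := by
  refine (Pool.Agent.Helper227.recIn_pre B).of_eq fun n => ?_
  simp

theorem mach {B : ℕ → Bool} {T : List ℕ × ℕ × ℕ → Prop} (hT : SI B T) :
    ∃ Φ : List ℕ × ℕ → Option ℕ, ComputableIn {chi B} Φ ∧
      (∀ σ n v, Φ (σ, n) = some v → ∃ j ≤ σ.length, T (σ.take j, n, v)) ∧
      ∀ (p : ℕ → ℕ) n, (∃ j v, T ((List.range j).map p, n, v)) →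
        ∃ k, (Φ ((List.range k).map p, n)).isSome := by
  classical
  obtain ⟨E, hE, mE, eE⟩ := hT
  obtain ⟨q, hq, mq, eq⟩ := hE
  let C : List Bool × (List ℕ × ℕ) → ℕ → Prop := fun y v =>
    ∃ s < y.1.length + 1, ∃ j < y.2.1.length + 1,
      q (y.1.take s, (y.2.1.take j, y.2.2, v)) y.2.1.length
  have hC : PrimrecRel C := by
    refine Helper227.PP.ex_lt (α := (List Bool × (List ℕ × ℕ)) × ℕ)
      (f := fun x => x.1.1.length + 1)
      (p := fun x s => ∃ j < x.1.2.1.length + 1,
        q (x.1.1.take s, (x.1.2.1.take j, x.1.2.2, x.2)) x.1.2.1.length) ?_ ?_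
    · refine Helper227.PP.ex_lt (α := ((List Bool × (List ℕ × ℕ)) × ℕ) × ℕ)
        (f := fun x => x.1.1.2.1.length + 1)
        (p := fun x j => q (x.1.1.1.take x.2, (x.1.1.2.1.take j, x.1.1.2.2, x.1.2))
          x.1.1.2.1.length) ?_ ?_
      · refine hq.comp ?_ ?_
        · refine (Primrec.list_take.comp (Primrec.snd.comp Primrec.fst)
            (Primrec.fst.comp (Primrec.fst.comp (Primrec.fst.comp Primrec.fst)))).pair
            ((Primrec.list_take.comp Primrec.snd (Primrec.fst.comp (Primrec.snd.comp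
              (Primrec.fst.comp (Primrec.fst.comp Primrec.fst))))).pair
            ((Primrec.snd.comp (Primrec.snd.comp (Primrec.fst.comp
              (Primrec.fst.comp Primrec.fst)))).pair
              (Primrec.snd.comp (Primrec.fst.comp Primrec.fst))))
        · exact Primrec.list_length.comp (Primrec.fst.comp (Primrec.snd.comp
              (Primrec.fst.comp (Primrec.fst.comp Primrec.fst))))
      · exact Primrec.succ.comp (Primrec.list_length.comp
          (Primrec.fst.comp (Primrec.snd.comp (Primrec.fst.comp Primrec.fst))))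
    · exact Primrec.succ.comp (Primrec.list_length.comp (Primrec.fst.comp Primrec.fst))
  let Ψ : List Bool × (List ℕ × ℕ) → Option ℕ := fun y =>
    ((List.range y.2.1.length).filterMap fun v => if C y v then some v else none).head?
  have hΨ : Primrec Ψ := by
    refine Primrec.list_head?.comp (Primrec.listFilterMap ?_ ?_)
    · exact Primrec.list_range.comp (Primrec.list_length.comp (Primrec.fst.comp Primrec.snd))
    · exact Primrec.ite hC (Primrec.option_some.comp Primrec.snd) (Primrec.const none)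
  refine ⟨fun x => Ψ (pre B x.1.length, x), ?_, ?_, ?_⟩
  · refine Helper67.BN.ci_compC hΨ.to_comp (Helper67.BN.ci_pair ?_ ComputableIn.id)
    exact Helper67.BN.ci_comp (ci_pre B)
      (Primrec.list_length.comp Primrec.fst).to_comp.computableIn
  · intro σ n v hv
    have h1 := List.mem_of_head? hv
    simp only [List.mem_filterMap, List.mem_range] at h1
    obtain ⟨w, -, h2⟩ := h1
    split_ifs at h2 with h3
    · obtain rfl := Option.some.inj h2
      obtain ⟨s, hs, j, hj, h4⟩ := h3
      simp only [Helper227.length_pre] at hs h4 hj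
      rw [Helper227.take_pre _ _ _ (by omega)] at h4
      exact ⟨j, by omega, (eE _).2 ⟨_, (eq _).2 ⟨_, h4⟩⟩⟩
  · rintro p n ⟨j, v, h⟩
    obtain ⟨s, hs⟩ := (eE _).1 h
    obtain ⟨t, ht⟩ := (eq _).1 hs
    refine ⟨j + v + s + t + 1, ?_⟩
    have h1 : C (pre B (j + v + s + t + 1), ((List.range (j + v + s + t + 1)).map p, n)) v := by
      refine ⟨s, by simp; omega, j, by simp; omega, ?_⟩
      simp only [List.length_map, List.length_range]
      rw [Helper227.take_pre _ _ _ (by omega), ← List.map_take, List.take_range,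
        min_eq_left (by omega)]
      exact mq _ _ _ (by omega) ht
    have h2 : v ∈ ((List.range (j + v + s + t + 1)).filterMap fun w =>
        if C (pre B (j + v + s + t + 1), ((List.range (j + v + s + t + 1)).map p, n)) w
          then some w else none) := by
      simp only [List.mem_filterMap, List.mem_range]
      exact ⟨v, by omega, by rw [if_pos h1]⟩
    simp only [Ψ, List.length_map, List.length_range]
    rw [List.isSome_head?]
    exact List.ne_nil_of_mem h2

/-! ### Computability of the metric relations -/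

@[fun_prop] theorem cpow {α : Type} [Primcodable α] {f g : α → ℕ} (hf : Computable f)
    (hg : Computable g) : Computable fun a => f a ^ g a :=
  (Primrec₂.unpaired'.1 Nat.Primrec.pow).to_comp.comp hf hg

theorem s1_lt {α : Type} [Primcodable α] {f g : α → ℕ} (hf : Computable f) (hg : Computable g) :
    S1 fun a => f a < g a :=
  S1.comp_computable (p := fun x : ℕ × ℕ => x.1 < x.2) (f := fun a => (f a, g a))
    (S1.of_prim Primrec.nat_lt) (hf.pair hg)

section rel

variable (M : CMS)

theorem ne_iff {D : ℕ × ℕ × ℕ → ℕ}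
    (hD : ∀ i j k, |dist (M.c i) (M.c j) - (D (i, j, k) : ℝ) / 2 ^ k| ≤ 1 / 2 ^ k) (i j : ℕ) :
    M.c i ≠ M.c j ↔ ∃ k, 1 < D (i, j, k) := by
  constructor
  · intro h
    have h1 : 0 < dist (M.c i) (M.c j) := dist_pos.2 h
    obtain ⟨k, hk⟩ := exists_pow_lt_of_lt_one (show 0 < dist (M.c i) (M.c j) / 2 by linarith)
      (show (1 / 2 : ℝ) < 1 by norm_num)
    refine ⟨k, ?_⟩
    by_contra hc
    have h2 : (D (i, j, k) : ℝ) ≤ 1 := by exact_mod_cast not_lt.1 hc
    have h3 := (abs_le.1 (hD i j k)).2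
    have h4 : (D (i, j, k) : ℝ) / 2 ^ k ≤ 1 / 2 ^ k := by gcongr
    rw [one_div_pow] at hk
    linarith
  · rintro ⟨k, hk⟩ h
    have h3 := (abs_le.1 (hD i j k)).1
    rw [h, dist_self, zero_sub, neg_le_neg_iff] at h3
    have h4 : (D (i, j, k) : ℝ) ≤ 1 := by
      have h5 : (0 : ℝ) < 2 ^ k := by positivity
      exact (div_le_div_iff_of_pos_right h5).1 h3
    have h6 : D (i, j, k) ≤ 1 := by exact_mod_cast h4
    omega

theorem lt_iff {D : ℕ × ℕ × ℕ → ℕ}
    (hD : ∀ i j k, |dist (M.c i) (M.c j) - (D (i, j, k) : ℝ) / 2 ^ k| ≤ 1 / 2 ^ k) (i j l k : ℕ) :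
    dist (M.c i) (M.c j) + 1 / 2 ^ l < 1 / 2 ^ k ↔
      ∃ r, (D (i, j, r) + 1) * 2 ^ (l + k) + 2 ^ (r + k) < 2 ^ (r + l) := by
  have key : ∀ r, (D (i, j, r) + 1) * 2 ^ (l + k) + 2 ^ (r + k) < 2 ^ (r + l) ↔
      ((D (i, j, r) : ℝ) + 1) / 2 ^ r + 1 / 2 ^ l < 1 / 2 ^ k := by
    intro r
    have h1 : (0 : ℝ) < 2 ^ (r + l + k) := by positivity
    rw [← mul_lt_mul_iff_left₀ h1]
    have e1 : (((D (i, j, r) : ℝ) + 1) / 2 ^ r + 1 / 2 ^ l) * 2 ^ (r + l + k) =
        (D (i, j, r) + 1) * 2 ^ (l + k) + 2 ^ (r + k) := by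
      rw [add_assoc, pow_add, pow_add, pow_add]
      field_simp
    have e2 : (1 / 2 ^ k : ℝ) * 2 ^ (r + l + k) = 2 ^ (r + l) := by
      rw [pow_add _ (r + l)]
      field_simp
    rw [e1, e2]
    exact_mod_cast Iff.rfl
  simp only [key]
  constructor
  · intro h
    obtain ⟨r, hr⟩ := exists_pow_lt_of_lt_one
      (show 0 < (1 / 2 ^ k - (dist (M.c i) (M.c j) + 1 / 2 ^ l)) / 2 by linarith)
      (show (1 / 2 : ℝ) < 1 by norm_num)
    refine ⟨r, ?_⟩
    have h3 := (abs_le.1 (hD i j r)).1
    rw [one_div_pow] at hr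
    rw [add_div]
    linarith
  · rintro ⟨r, hr⟩
    have h3 := (abs_le.1 (hD i j r)).2
    rw [add_div] at hr
    linarith

theorem s1_ne : S1 fun x : ℕ × ℕ => M.c x.1 ≠ M.c x.2 := by
  obtain ⟨D, hc, hD⟩ := M.comp
  refine S1.of_eq (S1.ex (p := fun x : ℕ × ℕ => fun k : ℕ => 1 < D (x.1, x.2, k)) ?_)
    fun x => (ne_iff M hD _ _).symm
  refine s1_lt (by fun_prop) (hc.comp ?_)
  fun_prop

theorem s1_lt' : S1 fun x : (ℕ × ℕ) × (ℕ × ℕ) =>
    dist (M.c x.1.1) (M.c x.1.2) + 1 / 2 ^ x.2.1 < 1 / 2 ^ x.2.2 := by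
  obtain ⟨D, hc, hD⟩ := M.comp
  refine S1.of_eq (S1.ex (p := fun x : (ℕ × ℕ) × (ℕ × ℕ) => fun r : ℕ =>
    (D (x.1.1, x.1.2, r) + 1) * 2 ^ (x.2.1 + x.2.2) + 2 ^ (r + x.2.2) < 2 ^ (r + x.2.1)) ?_)
    fun x => (lt_iff M hD _ _ _ _).symm
  refine s1_lt ?_ (by fun_prop)
  have h1 : Computable fun x : ((ℕ × ℕ) × (ℕ × ℕ)) × ℕ => D (x.1.1.1, x.1.1.2, x.2) :=
    hc.comp (by fun_prop)
  fun_prop

theorem s1_near : S1 fun x : (ℕ × ℕ) × ℕ => dist (M.c x.1.1) (M.c x.1.2) < 1 / 2 ^ x.2 := by
  refine S1.of_eq (S1.ex (p := fun x : (ℕ × ℕ) × ℕ => fun l : ℕ =>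
    dist (M.c x.1.1) (M.c x.1.2) + 1 / 2 ^ l < 1 / 2 ^ x.2) ?_) fun x => ?_
  · exact (s1_lt' M).comp (f := fun x : ((ℕ × ℕ) × ℕ) × ℕ => (x.1.1, (x.2, x.1.2)))
      ((Primrec.fst.comp Primrec.fst).pair (Primrec.snd.pair (Primrec.snd.comp Primrec.fst)))
  · constructor
    · rintro ⟨l, hl⟩
      have : (0 : ℝ) < 1 / 2 ^ l := by positivity
      linarith
    · intro h
      obtain ⟨l, hl⟩ := exists_pow_lt_of_lt_one
        (show 0 < 1 / 2 ^ x.2 - dist (M.c x.1.1) (M.c x.1.2) by linarith)
        (show (1 / 2 : ℝ) < 1 by norm_num)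
      rw [one_div_pow] at hl
      exact ⟨l, by linarith⟩

/-- no point of the space is equal to the `i`-th point of the dense sequence but at distance less
than `2 ^ (-k)`. -/
def Iso (i k : ℕ) : Prop := ∀ j, dist (M.c i) (M.c j) < 1 / 2 ^ k → M.c i = M.c j

theorem si_iso : SI halt fun x : ℕ × ℕ => Iso M x.1 x.2 := by
  have h : S1 fun x : ℕ × ℕ => ∃ j : ℕ, dist (M.c x.1) (M.c j) < 1 / 2 ^ x.2 ∧
      M.c x.1 ≠ M.c j := by
    refine S1.ex (p := fun x : ℕ × ℕ => fun j : ℕ => dist (M.c x.1) (M.c j) < 1 / 2 ^ x.2 ∧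
      M.c x.1 ≠ M.c j) (S1.and ?_ ?_)
    · exact (s1_near M).comp (f := fun x : (ℕ × ℕ) × ℕ => ((x.1.1, x.2), x.1.2))
        (((Primrec.fst.comp Primrec.fst).pair Primrec.snd).pair (Primrec.snd.comp Primrec.fst))
    · exact (s1_ne M).comp (f := fun x : (ℕ × ℕ) × ℕ => (x.1.1, x.2))
        ((Primrec.fst.comp Primrec.fst).pair Primrec.snd)
  refine (halt_neg h).of_eq fun x => ?_
  simp only [Iso, not_exists, not_and, not_not]

/-- the `i`-th point of the dense sequence did not occur before. -/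
def New (i : ℕ) : Prop := ∀ j < i, M.c i ≠ M.c j

theorem s1_new : S1 fun i : ℕ => New M i :=
  S1.all_lt (p := fun i j => M.c i ≠ M.c j) (f := fun i => i) (s1_ne M) Primrec.id

theorem SI_not_new : SI halt fun i : ℕ => ¬ New M i := halt_neg (s1_new M)

end rel

open Classical in
theorem si_count {B : ℕ → Bool} {p : ℕ → Prop} (h1 : SI B p) (h2 : SI B fun n => ¬ p n) :
    SI B fun x : ℕ × ℕ => Nat.count p x.1 = x.2 := by
  have h3 : ComputableIn {chi B} fun n => decide (p n) := by
    refine SI.iff_recIn.2 ?_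
    have h4 : SI B fun x : ℕ × Bool => (p x.1 ∧ x.2 = true) ∨ (¬ p x.1 ∧ x.2 = false) :=
      SI.or (SI.and (h1.comp Primrec.fst) (SI.of_prim (Primrec.eq.comp Primrec.snd
        (Primrec.const _)))) (SI.and (h2.comp Primrec.fst) (SI.of_prim
        (Primrec.eq.comp Primrec.snd (Primrec.const _))))
    refine h4.of_eq fun x => ?_
    rcases x with ⟨n, b⟩
    by_cases h : p n <;> simp [h]
  have h4 : ComputableIn {chi B} fun v => Nat.count p v := by
    have h5 := Helper67.BN.ci_nat_rec (O := {chi B}) (f := fun v : ℕ => v) (g := fun _ => 0)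
      (h := fun (_ : ℕ) (z : ℕ × ℕ) => z.2 + (decide (p z.1)).toNat) ComputableIn.id
      (ComputableIn.const 0) ?_
    · have h6 : (fun v => Nat.count p v) = fun a => Nat.rec (motive := fun _ => ℕ) 0
          (fun y IH => IH + (decide (p y)).toNat) a := by
        funext v
        induction v with
        | zero => simp
        | succ n ih =>
          rw [Nat.count_succ, ih]
          by_cases h : p n <;> simp [h]
      rw [h6]
      exact h5
    · have h7 : ComputableIn {chi B} fun x : ℕ × (ℕ × ℕ) => decide (p x.2.1) :=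
        Helper67.BN.ci_comp h3 (Primrec.fst.comp Primrec.snd).to_comp.computableIn
      have h8 : Computable fun x : ℕ × Bool => x.1 + x.2.toNat := by
        refine (Computable.cond Computable.snd (by fun_prop : Computable fun x : ℕ × Bool => x.1 + 1)
          Computable.fst).of_eq ?_
        rintro ⟨a, b⟩
        cases b <;> simp
      exact Helper67.BN.ci_compC h8 (Helper67.BN.ci_pair
        (Primrec.snd.comp Primrec.snd).to_comp.computableIn h7)
  refine (SI.iff_recIn.1 h4).of_eq fun x => ?_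
  simp [eq_comm]

section disc

variable (M : CMS)

theorem dist_cc (i j : ℕ) : dist (M.c i : M.bar) (M.c j : M.bar) = dist (M.c i) (M.c j) :=
  UniformSpace.Completion.dist_eq _ _

theorem cc_inj {i j : ℕ} (h : (M.c i : M.bar) = (M.c j : M.bar)) : M.c i = M.c j :=
  UniformSpace.Completion.coe_injective _ h

theorem cc_surj [DiscreteTopology M.bar] (x : M.bar) : ∃ i, (M.c i : M.bar) = x := by
  have h1 : DenseRange fun i => (M.c i : M.bar) :=
    UniformSpace.Completion.denseRange_coe.comp M.dense (UniformSpace.Completion.continuous_coe _)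
  have h2 := dense_discrete.1 h1
  have h3 : x ∈ Set.range fun i => (M.c i : M.bar) := by rw [h2]; trivial
  exact h3

theorem exists_new (i : ℕ) : ∃ j, New M j ∧ M.c j = M.c i := by
  classical
  have h : ∃ j, M.c j = M.c i := ⟨i, rfl⟩
  refine ⟨Nat.find h, fun j hj e => Nat.find_min h hj ?_, Nat.find_spec h⟩
  rw [← e, Nat.find_spec h]

theorem new_inj {i j : ℕ} (hi : New M i) (hj : New M j) (h : M.c i = M.c j) : i = j := by
  rcases lt_trichotomy i j with h1 | h1 | h1
  · exact absurd h.symm (hj i h1)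
  · exact h1
  · exact absurd h (hi j h1)

theorem new_infinite [DiscreteTopology M.bar] [Infinite M.bar] : {i | New M i}.Infinite := by
  intro hf
  have h1 : (Set.univ : Set M.bar) ⊆ (fun i => (M.c i : M.bar)) '' {i | New M i} := by
    intro x _
    obtain ⟨i, rfl⟩ := cc_surj M x
    obtain ⟨j, hj, e⟩ := exists_new M i
    exact ⟨j, hj, by simp [e]⟩
  exact Set.infinite_univ ((hf.image _).subset h1)

open Classical in
/-- the enumeration without repetitions. -/
noncomputable def enum [DiscreteTopology M.bar] [Infinite M.bar] : ℕ ≃ M.bar :=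
  Equiv.ofBijective (fun m => (M.c (Nat.nth (New M) m) : M.bar)) (by
    constructor
    · intro m n h
      have h1 := new_inj M (Nat.nth_mem_of_infinite (new_infinite M) m)
        (Nat.nth_mem_of_infinite (new_infinite M) n) (cc_inj M h)
      exact Nat.nth_injective (new_infinite M) h1
    · intro x
      obtain ⟨i, rfl⟩ := cc_surj M x
      obtain ⟨j, hj, e⟩ := exists_new M i
      refine ⟨Nat.count (New M) j, ?_⟩
      simp only [Nat.nth_count hj, e])

open Classical in
/-- the graph of the enumeration. -/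
def U (m v : ℕ) : Prop := New M v ∧ Nat.count (New M) v = m

theorem si_U : SI halt fun x : ℕ × ℕ => U M x.1 x.2 := by
  classical
  have h1 := si_count (SI.of_s1 (B := halt) (s1_new M)) (SI_not_new M)
  have h2 : SI halt fun x : ℕ × ℕ => New M x.2 ∧ Nat.count (New M) x.2 = x.1 :=
    SI.and ((SI.of_s1 (s1_new M)).comp Primrec.snd)
      (h1.comp (f := fun x : ℕ × ℕ => (x.2, x.1)) (Primrec.snd.pair Primrec.fst))
  refine h2.of_eq fun x => ?_
  simp only [U]

theorem U_iff [DiscreteTopology M.bar] [Infinite M.bar] (m v : ℕ) :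
    U M m v ↔ Nat.nth (New M) m = v := by
  classical
  constructor
  · rintro ⟨h1, h2⟩
    rw [← h2]
    convert Nat.nth_count h1
  · rintro rfl
    refine ⟨Nat.nth_mem_of_infinite (new_infinite M) m, ?_⟩
    convert Nat.count_nth_of_infinite (new_infinite M) m

theorem IsName.dist_le {M : CMS} {p : ℕ → ℕ} {x : M.bar} (h : IsName M p x) (l : ℕ) :
    dist (M.c (p l) : M.bar) x ≤ 1 / 2 ^ l := by
  refine le_of_tendsto (tendsto_const_nhds.dist h.2) ?_
  filter_upwards [eventually_ge_atTop l] with j hj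
  rw [dist_cc]
  exact h.1 l j hj

theorem exists_iso [DiscreteTopology M.bar] (i : ℕ) : ∃ k, Iso M i k := by
  obtain ⟨ε, hε, h⟩ := Metric.isOpen_iff.1 (isOpen_discrete ({(M.c i : M.bar)} : Set M.bar)) _ rfl
  obtain ⟨k, hk⟩ := exists_pow_lt_of_lt_one hε (show (1 / 2 : ℝ) < 1 by norm_num)
  rw [one_div_pow] at hk
  refine ⟨k, fun j hj => ?_⟩
  have h1 : (M.c j : M.bar) ∈ Metric.ball (M.c i : M.bar) ε := by
    rw [Metric.mem_ball, dist_comm, dist_cc]
    linarith
  exact (cc_inj M (h h1)).symm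

end disc

/-- the relation used for the upper bound -/
def T (M N : CMS) (x : List ℕ × ℕ × ℕ) : Prop :=
  ∃ y : (ℕ × ℕ) × (ℕ × ℕ), y.2.1 < x.1.length ∧ U M y.1.1 y.1.2 ∧ Iso M y.1.2 y.2.2 ∧
    dist (M.c (x.1.getD y.2.1 0)) (M.c y.1.2) + 1 / 2 ^ y.2.1 < 1 / 2 ^ y.2.2 ∧ U N y.1.1 x.2.2

theorem si_T (M N : CMS) : SI halt (T M N) := by
  refine SI.ex (p := fun (x : List ℕ × ℕ × ℕ) (y : (ℕ × ℕ) × (ℕ × ℕ)) =>
    y.2.1 < x.1.length ∧ U M y.1.1 y.1.2 ∧ Iso M y.1.2 y.2.2 ∧
    dist (M.c (x.1.getD y.2.1 0)) (M.c y.1.2) + 1 / 2 ^ y.2.1 < 1 / 2 ^ y.2.2 ∧ U N y.1.1 x.2.2)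
    (SI.and ?_ (SI.and ?_ (SI.and ?_ (SI.and ?_ ?_))))
  · exact SI.of_prim (Primrec.nat_lt.comp (Primrec.fst.comp (Primrec.snd.comp Primrec.snd))
      (Primrec.list_length.comp (Primrec.fst.comp Primrec.fst)))
  · exact (si_U M).comp (f := fun z : (List ℕ × ℕ × ℕ) × ((ℕ × ℕ) × (ℕ × ℕ)) => z.2.1)
      (Primrec.fst.comp Primrec.snd)
  · exact (si_iso M).comp (f := fun z : (List ℕ × ℕ × ℕ) × ((ℕ × ℕ) × (ℕ × ℕ)) =>
      (z.2.1.2, z.2.2.2)) ((Primrec.snd.comp (Primrec.fst.comp Primrec.snd)).pair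
        (Primrec.snd.comp (Primrec.snd.comp Primrec.snd)))
  · exact (SI.of_s1 (s1_lt' M)).comp (f := fun z : (List ℕ × ℕ × ℕ) × ((ℕ × ℕ) × (ℕ × ℕ)) =>
      ((z.1.1.getD z.2.2.1 0, z.2.1.2), (z.2.2.1, z.2.2.2)))
      ((((Primrec.list_getD 0).comp (Primrec.fst.comp Primrec.fst)
        (Primrec.fst.comp (Primrec.snd.comp Primrec.snd))).pair
        (Primrec.snd.comp (Primrec.fst.comp Primrec.snd))).pair
        ((Primrec.fst.comp (Primrec.snd.comp Primrec.snd)).pair
          (Primrec.snd.comp (Primrec.snd.comp Primrec.snd))))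
  · exact (si_U N).comp (f := fun z : (List ℕ × ℕ × ℕ) × ((ℕ × ℕ) × (ℕ × ℕ)) =>
      (z.2.1.1, z.1.2.2)) ((Primrec.fst.comp (Primrec.fst.comp Primrec.snd)).pair
        (Primrec.snd.comp (Primrec.snd.comp Primrec.fst)))

theorem T_spec {M N : CMS} [DiscreteTopology M.bar] [Infinite M.bar] [DiscreteTopology N.bar]
    [Infinite N.bar] {p : ℕ → ℕ} {x : M.bar} (hp : IsName M p x) (j n v : ℕ)
    (h : T M N ((List.range j).map p, n, v)) : (N.c v : N.bar) = enum N ((enum M).symm x) := by
  obtain ⟨⟨⟨m, i⟩, ⟨l, k⟩⟩, h1, h2, h3, h4, h5⟩ := h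
  simp only [List.length_map, List.length_range] at h1 h2 h3 h4 h5
  have h6 : ((List.range j).map p).getD l 0 = p l := by
    simp [List.getD_eq_getElem?_getD, h1]
  rw [h6] at h4
  have h7 : (M.c i : M.bar) = x := by
    obtain ⟨i', rfl⟩ := cc_surj M x
    have h8 := hp.dist_le l
    have h9 : dist (M.c i : M.bar) (M.c i' : M.bar) < 1 / 2 ^ k := by
      have h10 := dist_triangle (M.c i : M.bar) (M.c (p l) : M.bar) (M.c i' : M.bar)
      rw [dist_comm (M.c i : M.bar) (M.c (p l) : M.bar), dist_cc M (p l) i] at h10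
      linarith
    rw [dist_cc] at h9
    rw [h3 i' h9]
  rw [U_iff] at h2 h5
  have h8 : enum M m = x := by
    rw [← h7, ← h2]
    rfl
  rw [← h8, Equiv.symm_apply_apply, ← h5]
  rfl

theorem T_ex {M N : CMS} [DiscreteTopology M.bar] [Infinite M.bar] [DiscreteTopology N.bar]
    [Infinite N.bar] {p : ℕ → ℕ} {x : M.bar} (hp : IsName M p x) (n : ℕ) :
    ∃ j v, T M N ((List.range j).map p, n, v) := by
  classical
  set m := (enum M).symm x with hm
  set i := Nat.nth (New M) m with hi
  have hx : (M.c i : M.bar) = x := by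
    have : enum M m = x := by rw [hm, Equiv.apply_symm_apply]
    exact this
  obtain ⟨k, hk⟩ := exists_iso M i
  refine ⟨k + 3, Nat.nth (New N) m, ⟨⟨m, i⟩, ⟨k + 2, k⟩⟩, by simp, (U_iff M _ _).2 hi.symm, hk, ?_,
    (U_iff N _ _).2 rfl⟩
  have h6 : ((List.range (k + 3)).map p).getD (k + 2) 0 = p (k + 2) := by
    simp [List.getD_eq_getElem?_getD]
  simp only
  rw [h6]
  have h7 := hp.dist_le (k + 2)
  rw [← hx, dist_cc] at h7
  have h8 : (1 / 2 ^ (k + 2) : ℝ) + 1 / 2 ^ (k + 2) < 1 / 2 ^ k := by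
    rw [pow_add]
    have : (0 : ℝ) < 1 / 2 ^ k := by positivity
    have e : (1 / (2 ^ k * 2 ^ 2) : ℝ) = (1 / 2 ^ k) * (1 / 4) := by
      field_simp
      norm_num
    rw [e]
    linarith
  linarith

theorem categorical_halt (X : Type) [TopologicalSpace X] [DiscreteTopology X] [Infinite X] :
    Categorical halt X := by
  classical
  rintro M N ⟨hM⟩ ⟨hN⟩
  have : DiscreteTopology M.bar := hM.isEmbedding.discreteTopology
  have : DiscreteTopology N.bar := hN.isEmbedding.discreteTopology
  have : Infinite M.bar := hM.toEquiv.infinite_iff.2 inferInstance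
  have : Infinite N.bar := hN.toEquiv.infinite_iff.2 inferInstance
  let e : M.bar ≃ N.bar := (enum M).symm.trans (enum N)
  refine ⟨⟨e, continuous_of_discreteTopology, continuous_of_discreteTopology⟩, ?_⟩
  obtain ⟨Φ, h1, h2, h3⟩ := mach (si_T M N)
  refine ⟨Φ, h1, fun x p hp => ?_⟩
  set v0 := Nat.nth (New N) ((enum M).symm x) with hv0
  have h4 : ∀ k n v, Φ ((List.range k).map p, n) = some v → v = v0 := by
    intro k n v hv
    obtain ⟨j, hj, h5⟩ := h2 _ _ _ hv
    rw [← List.map_take, List.take_range] at h5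
    have h6 := T_spec hp _ _ _ h5
    obtain ⟨y, -, -, -, -, h7⟩ := h5
    have h8 : (N.c v : N.bar) = (N.c v0 : N.bar) := by rw [h6]; rfl
    exact new_inj N h7.1 (Nat.nth_mem_of_infinite (new_infinite N) _) (cc_inj N h8)
  refine ⟨fun _ => v0, ⟨fun i j _ => by simp, ?_⟩, fun n => ?_⟩
  · have : (N.c v0 : N.bar) = e x := rfl
    show Tendsto (fun _ : ℕ => (N.c v0 : N.bar)) atTop (𝓝 (e x))
    rw [← this]
    exact tendsto_const_nhds
  · have h5 := h3 p n (T_ex hp n)
    refine ⟨Nat.find h5, ?_, fun j hj => ?_⟩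
    · obtain ⟨v, hv⟩ := Option.isSome_iff_exists.1 (Nat.find_spec h5)
      rw [hv, h4 _ _ _ hv]
    · simpa using Nat.find_min h5 hj

/-! ### Presentations inside the real line -/

theorem abs_natsub (a b : ℕ) : (((a - b) + (b - a) : ℕ) : ℝ) = |(a : ℝ) - b| := by
  rcases le_total a b with h | h
  · rw [Nat.sub_eq_zero_of_le h, zero_add, Nat.cast_sub h, abs_sub_comm, abs_of_nonneg]
    exact sub_nonneg.2 (by exact_mod_cast h)
  · rw [Nat.sub_eq_zero_of_le h, add_zero, Nat.cast_sub h, abs_of_nonneg]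
    exact sub_nonneg.2 (by exact_mod_cast h)

/-- the computable metric space of a uniformly computable sequence of reals. -/
def ofSeq (a : ℕ → ℝ) (C : ℕ × ℕ → ℕ) (hC : Computable C)
    (h : ∀ i k, |a i - (C (i, k) : ℝ) / 2 ^ k| ≤ 1 / 2 ^ (k + 1)) : CMS where
  pt := Set.range a
  c i := ⟨a i, i, rfl⟩
  dense := by
    have : Function.Surjective fun i => (⟨a i, i, rfl⟩ : Set.range a) := by
      rintro ⟨_, i, rfl⟩
      exact ⟨i, rfl⟩
    exact this.denseRange
  comp := by
    refine ⟨fun x => (C (x.1, x.2.2) - C (x.2.1, x.2.2)) + (C (x.2.1, x.2.2) - C (x.1, x.2.2)),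
      ?_, fun i j k => ?_⟩
    · have h1 : Computable fun x : ℕ × ℕ × ℕ => C (x.1, x.2.2) := hC.comp (by fun_prop)
      have h2 : Computable fun x : ℕ × ℕ × ℕ => C (x.2.1, x.2.2) := hC.comp (by fun_prop)
      fun_prop
    · simp only
      rw [abs_natsub]
      have e1 : dist (⟨a i, i, rfl⟩ : Set.range a) ⟨a j, j, rfl⟩ = |a i - a j| := by
        rw [Subtype.dist_eq, Real.dist_eq]
      rw [e1]
      have e2 : |(C (i, k) : ℝ) - C (j, k)| / 2 ^ k =
          |(C (i, k) : ℝ) / 2 ^ k - (C (j, k) : ℝ) / 2 ^ k| := by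
        rw [← sub_div, abs_div, abs_of_pos (show (0 : ℝ) < 2 ^ k by positivity)]
      rw [e2]
      refine (abs_abs_sub_abs_le _ _).trans ?_
      have e3 : a i - a j - ((C (i, k) : ℝ) / 2 ^ k - (C (j, k) : ℝ) / 2 ^ k) =
          (a i - (C (i, k) : ℝ) / 2 ^ k) - (a j - (C (j, k) : ℝ) / 2 ^ k) := by ring
      rw [e3]
      refine (abs_sub _ _).trans ?_
      have h1 := h i k
      have h2 := h j k
      have h3 : (1 / 2 ^ (k + 1) : ℝ) + 1 / 2 ^ (k + 1) = 1 / 2 ^ k := by
        rw [pow_succ]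
        field_simp
        norm_num
      linarith

theorem ofSeq_homeo (a : ℕ → ℝ) (C : ℕ × ℕ → ℕ) (hC : Computable C)
    (h : ∀ i k, |a i - (C (i, k) : ℝ) / 2 ^ k| ≤ 1 / 2 ^ (k + 1))
    (ht : Tendsto a atTop atTop) : Nonempty ((ofSeq a C hC h).bar ≃ₜ ℕ) := by
  have h1 : IsProperMap a := by
    rw [isProperMap_iff_tendsto_cocompact]
    exact ⟨continuous_of_discreteTopology, by simpa using ht.mono_right le_sup_right⟩
  have h2 : ∀ s : Set (Set.range a), IsClosed s := by
    intro s
    have h3 : IsClosed (a '' {i | (⟨a i, i, rfl⟩ : Set.range a) ∈ s}) :=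
      h1.isClosedMap _ (isClosed_discrete _)
    have h4 : s = Subtype.val ⁻¹' (a '' {i | (⟨a i, i, rfl⟩ : Set.range a) ∈ s}) := by
      ext ⟨x, i, rfl⟩
      simp only [Set.mem_preimage, Set.mem_image, Set.mem_ofPred_eq]
      constructor
      · intro hx
        exact ⟨i, hx, rfl⟩
      · rintro ⟨j, hj, e⟩
        have : (⟨a i, i, rfl⟩ : Set.range a) = ⟨a j, j, rfl⟩ := Subtype.ext e.symm
        rw [this]
        exact hj
    rw [h4]
    exact h3.preimage continuous_subtype_val
  have h4 : DiscreteTopology (Set.range a) := discreteTopology_iff_forall_isClosed.2 h2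
  have h5 : CompleteSpace (Set.range a) := h1.isClosed_range.completeSpace_coe
  have h6 : Infinite (Set.range a) := by
    refine Set.infinite_coe_iff.2 fun hf => ?_
    exact not_bddAbove_of_tendsto_atTop ht hf.bddAbove
  have h7 : Countable (Set.range a) := (Set.countable_range a).to_subtype
  obtain ⟨f⟩ := nonempty_equiv_of_countable (α := Set.range a) (β := ℕ)
  let g : Set.range a ≃ₜ ℕ := ⟨f, continuous_of_discreteTopology, continuous_of_discreteTopology⟩
  exact ⟨(UniformSpace.Completion.UniformCompletion.completeEquivSelf (α := Set.range a)).toHomeomorph.trans g⟩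

/-! ### A presentation coding the halting set -/

section coding

variable (h : ℕ × ℕ → Bool)

/-- approximations of the coding reals -/
def eps (n : ℕ) : ℕ → ℕ
  | 0 => 0
  | k + 1 => 2 * eps n k + bif (eps n k == 0) && h (n, k) then 1 else 0

theorem eps_zero {n s : ℕ} (hs : ∀ t < s, h (n, t) = false) : ∀ k ≤ s, eps h n k = 0
  | 0, _ => rfl
  | k + 1, hk => by
    rw [eps, eps_zero hs k (by omega), hs k (by omega)]
    rfl

theorem eps_pow {n s : ℕ} (hs : ∀ t < s, h (n, t) = false) (h1 : h (n, s) = true) :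
    ∀ t, eps h n (s + 1 + t) = 2 ^ t
  | 0 => by
    rw [add_zero, eps, eps_zero h hs s le_rfl, h1]
    rfl
  | t + 1 => by
    rw [← add_assoc, eps, eps_pow hs h1 t]
    have : (2 ^ t == 0) = false := by simp
    rw [this, pow_succ]
    simp [mul_comm]

open Classical in
/-- the coding reals -/
noncomputable def del (n : ℕ) : ℝ :=
  if hh : ∃ s, h (n, s) = true then 1 / 2 ^ (Nat.find hh + 1) else 0

theorem del_approx (n k : ℕ) : |del h n - (eps h n k : ℝ) / 2 ^ k| ≤ 1 / 2 ^ (k + 1) := by
  classical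
  unfold del
  split_ifs with hh
  · have h1 := Nat.find_spec hh
    have h2 : ∀ t < Nat.find hh, h (n, t) = false := fun t ht => by
      simpa using Nat.find_min hh ht
    set s := Nat.find hh
    rcases le_or_gt k s with hk | hk
    · rw [eps_zero h h2 k hk]
      simp only [Nat.cast_zero, zero_div, sub_zero]
      rw [abs_of_pos (by positivity)]
      exact one_div_le_one_div_of_le (by positivity)
        (pow_le_pow_right₀ (by norm_num) (by omega))
    · obtain ⟨t, rfl⟩ := Nat.exists_eq_add_of_lt hk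
      have e1 : s + t + 1 = s + 1 + t := by ring
      rw [e1, eps_pow h h2 h1 t]
      have e2 : ((2 ^ t : ℕ) : ℝ) / 2 ^ (s + 1 + t) = 1 / 2 ^ (s + 1) := by
        push_cast
        rw [pow_add _ (s + 1) t]
        field_simp
      rw [e2, sub_self, abs_zero]
      positivity
  · have h1 : ∀ t, h (n, t) = false := fun t => by
      by_contra hc
      exact hh ⟨t, by simpa using hc⟩
    rw [eps_zero h (fun t _ => h1 t) k le_rfl]
    simp

theorem del_pos {n : ℕ} : del h n ≠ 0 ↔ ∃ s, h (n, s) = true := by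
  classical
  unfold del
  split_ifs with hh
  · simp only [hh, iff_true]
    positivity
  · simp [hh]

theorem del_nonneg (n : ℕ) : 0 ≤ del h n := by
  classical
  unfold del
  split_ifs with hh <;> positivity

/-- the sequence of points -/
noncomputable def pts (i : ℕ) : ℝ := (i / 2 : ℕ) * 2 + if i % 2 = 1 then del h (i / 2) else 0

/-- its approximations -/
def ptsC (x : ℕ × ℕ) : ℕ := (x.1 / 2 * 2) * 2 ^ x.2 + if x.1 % 2 = 1 then eps h (x.1 / 2) x.2 else 0

theorem pts_approx (i k : ℕ) : |pts h i - (ptsC h (i, k) : ℝ) / 2 ^ k| ≤ 1 / 2 ^ (k + 1) := by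
  unfold pts ptsC
  simp only
  split_ifs with hi
  · have := del_approx h (i / 2) k
    push_cast
    rw [add_div, mul_div_cancel_right₀ _ (by positivity)]
    refine le_of_eq_of_le ?_ this
    congr 1
    ring
  · push_cast
    rw [add_zero, add_zero, mul_div_cancel_right₀ _ (by positivity), sub_self, abs_zero]
    positivity

theorem pts_tendsto : Tendsto (pts h) atTop atTop := by
  refine tendsto_atTop_mono (f := fun i : ℕ => (i : ℝ) - 1) (fun i => ?_) ?_
  · unfold pts
    have h1 : (i : ℝ) ≤ (i / 2 : ℕ) * 2 + 1 := by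
      have : i ≤ i / 2 * 2 + 1 := by omega
      exact_mod_cast this
    split_ifs
    · have := del_nonneg h (i / 2)
      linarith
    · linarith
  · exact tendsto_atTop_add_const_right _ _ tendsto_natCast_atTop_atTop

theorem eps_comp (hh : Computable h) : Computable fun x : ℕ × ℕ => eps h x.1 x.2 := by
  have h1 : Computable fun x : ℕ × ℕ => Nat.rec (motive := fun _ => ℕ) 0
      (fun k IH => 2 * IH + bif (IH == 0) && h (x.1, k) then 1 else 0) x.2 := by
    refine Computable.nat_rec (f := fun x : ℕ × ℕ => x.2) (g := fun _ => 0)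
      (h := fun (x : ℕ × ℕ) (z : ℕ × ℕ) => 2 * z.2 + bif (z.2 == 0) && h (x.1, z.1) then 1 else 0)
      Computable.snd (Computable.const 0) ?_
    have h2 : Computable fun x : (ℕ × ℕ) × (ℕ × ℕ) => h (x.1.1, x.2.1) := hh.comp (by fun_prop)
    have h3 : Computable fun x : (ℕ × ℕ) × (ℕ × ℕ) => (x.2.2 == 0) := by
      have : PrimrecPred fun x : (ℕ × ℕ) × (ℕ × ℕ) => x.2.2 = 0 :=
        Primrec.eq.comp (Primrec.snd.comp Primrec.snd) (Primrec.const 0)
      exact this.decide.to_comp
    show Computable fun x : (ℕ × ℕ) × (ℕ × ℕ) =>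
      2 * x.2.2 + bif (x.2.2 == 0) && h (x.1.1, x.2.1) then 1 else 0
    fun_prop
  refine h1.of_eq fun x => ?_
  rcases x with ⟨n, k⟩
  simp only
  induction k with
  | zero => rfl
  | succ k ih => rw [eps, ← ih]

theorem ptsC_comp (hh : Computable h) : Computable (ptsC h) := by
  have h1 : Computable fun x : ℕ × ℕ => eps h (x.1 / 2) x.2 :=
    (eps_comp h hh).comp (g := fun x : ℕ × ℕ => (x.1 / 2, x.2))
      ((Primrec.nat_div.comp Primrec.fst (Primrec.const 2)).to_comp.pair Computable.snd)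
  have h2 : Computable fun x : ℕ × ℕ => x.1 / 2 :=
    (Primrec.nat_div.comp Primrec.fst (Primrec.const 2)).to_comp
  have h3 : Computable fun x : ℕ × ℕ => decide (x.1 % 2 = 1) := by
    have : PrimrecPred fun x : ℕ × ℕ => x.1 % 2 = 1 :=
      Primrec.eq.comp (Primrec.nat_mod.comp Primrec.fst (Primrec.const 2)) (Primrec.const 1)
    exact this.decide.to_comp
  have h4 : Computable fun x : ℕ × ℕ => (x.1 / 2 * 2) * 2 ^ x.2 +
      bif decide (x.1 % 2 = 1) then eps h (x.1 / 2) x.2 else 0 := by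
    fun_prop
  refine h4.of_eq fun x => ?_
  unfold ptsC
  by_cases hx : x.1 % 2 = 1 <;> simp [hx]

end coding

/-! ### The lower bound -/

theorem natC_approx (i k : ℕ) : |(i : ℝ) - ((i * 2 ^ k : ℕ) : ℝ) / 2 ^ k| ≤ 1 / 2 ^ (k + 1) := by
  push_cast
  rw [mul_div_cancel_right₀ _ (by positivity), sub_self, abs_zero]
  positivity

theorem natC_comp : Computable fun x : ℕ × ℕ => x.1 * 2 ^ x.2 := by fun_prop

/-- the standard presentation of the discrete space `ℕ` -/
def std : CMS := ofSeq (fun i => (i : ℝ)) (fun x => x.1 * 2 ^ x.2) natC_comp natC_approx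

theorem std_homeo : Nonempty (std.bar ≃ₜ ℕ) :=
  ofSeq_homeo _ _ _ _ tendsto_natCast_atTop_atTop

theorem std_dist (i j : ℕ) : dist (std.c i) (std.c j) = |(i : ℝ) - j| := by
  show dist (⟨(i : ℝ), i, rfl⟩ : Set.range fun i : ℕ => (i : ℝ)) ⟨(j : ℝ), j, rfl⟩ = _
  rw [Subtype.dist_eq, Real.dist_eq]

theorem const_name (M : CMS) (i : ℕ) : IsName M (fun _ => i) (M.c i : M.bar) :=
  ⟨fun _ _ _ => by simp, tendsto_const_nhds⟩

/-- the value that the machine `Φ` outputs on the constant name `i` at argument `1` -/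
def V (Φ : List ℕ × ℕ → Option ℕ) (x : ℕ × ℕ) : Prop :=
  ∃ k, Φ ((List.range k).map (fun _ => x.1), 1) = some x.2 ∧
    ∀ j < k, Φ ((List.range j).map (fun _ => x.1), 1) = none

theorem si_V {B : ℕ → Bool} {Φ : List ℕ × ℕ → Option ℕ} (hΦ : ComputableIn {chi B} Φ) :
    SI B (V Φ) := by
  have h1 : SI B fun x : (List ℕ × ℕ) × Option ℕ => Φ x.1 = x.2 := by
    refine (SI.iff_recIn.1 hΦ).of_eq fun x => ?_
    simp [eq_comm]
  have h2 : ∀ {α : Type} [Primcodable α] {f g : α → ℕ}, Primrec f → Primrec g →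
      Primrec fun a => (List.range (f a)).map fun _ => g a := by
    intro α _ f g hf hg
    exact Primrec.list_map (Primrec.list_range.comp hf) ((hg.comp Primrec.fst).to₂)
  refine SI.ex (p := fun (x : ℕ × ℕ) (k : ℕ) => Φ ((List.range k).map (fun _ => x.1), 1) =
    some x.2 ∧ ∀ j < k, Φ ((List.range j).map (fun _ => x.1), 1) = none) (SI.and ?_ ?_)
  · exact h1.comp (f := fun z : (ℕ × ℕ) × ℕ => (((List.range z.2).map (fun _ => z.1.1), 1),
      some z.1.2)) (((h2 Primrec.snd (Primrec.fst.comp Primrec.fst)).pair (Primrec.const 1)).pair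
        (Primrec.option_some.comp (Primrec.snd.comp Primrec.fst)))
  · refine SI.all_lt (p := fun (z : (ℕ × ℕ) × ℕ) (j : ℕ) =>
      Φ ((List.range j).map (fun _ => z.1.1), 1) = none) (f := fun z => z.2) ?_ Primrec.snd
    exact h1.comp (f := fun z : ((ℕ × ℕ) × ℕ) × ℕ => (((List.range z.2).map
      (fun _ => z.1.1.1), 1), none)) (((h2 Primrec.snd (Primrec.fst.comp (Primrec.fst.comp
        Primrec.fst))).pair (Primrec.const 1)).pair (Primrec.const none))

theorem lower {B : ℕ → Bool} (hB : Categorical B ℕ) : TuringReducible (chi halt) (chi B) := by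
  classical
  obtain ⟨q, hq, -, eq⟩ := S1.of_re halt_re
  let h : ℕ × ℕ → Bool := fun x => decide (q x.1 x.2)
  have hh : Computable h := (PrimrecPred.decide hq).to_comp
  have eh : ∀ n, halt n = true ↔ ∃ s, h (n, s) = true := fun n => by
    refine (eq n).trans ?_
    simp [h]
  let K : CMS := ofSeq (pts h) (ptsC h) (ptsC_comp h hh) (pts_approx h)
  have hK : Nonempty (K.bar ≃ₜ ℕ) := ofSeq_homeo _ _ _ _ (pts_tendsto h)
  obtain ⟨F, Φ, hΦ, hF⟩ := hB K std hK std_homeo
  have : DiscreteTopology std.bar := std_homeo.some.isEmbedding.discreteTopology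
  -- the values are read off correctly
  have h1 : ∀ i, ∃ v, V Φ (i, v) := fun i => by
    obtain ⟨q, -, h2⟩ := hF _ _ (const_name K i)
    obtain ⟨k, h3, h4⟩ := h2 1
    exact ⟨q 1, k, h3, h4⟩
  have h2 : ∀ i v, V Φ (i, v) → F (K.c i : K.bar) = (std.c v : std.bar) := by
    rintro i v ⟨k, h3, h4⟩
    obtain ⟨q, h5, h6⟩ := hF _ _ (const_name K i)
    obtain ⟨k', h7, h8⟩ := h6 1
    have h9 : k = k' := by
      rcases lt_trichotomy k k' with hk | hk | hk
      · rw [h8 k hk] at h3
        cases h3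
      · exact hk
      · rw [h4 k' hk] at h7
        cases h7
    subst h9
    simp only at h3
    rw [h7] at h3
    have h10 : q 1 = v := Option.some.inj h3
    obtain ⟨w, hw⟩ := cc_surj std (F (K.c i : K.bar))
    have h11 := h5.dist_le 1
    rw [← hw, dist_cc, std_dist, h10] at h11
    have h12 : v = w := by
      by_contra hne
      have h13 : (1 : ℝ) ≤ |(v : ℝ) - w| := by
        rcases lt_or_gt_of_ne hne with hl | hl
        · have : (v : ℝ) + 1 ≤ w := by exact_mod_cast hl
          rw [abs_sub_comm]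
          exact le_trans (by linarith) (le_abs_self _)
        · have : (w : ℝ) + 1 ≤ v := by exact_mod_cast hl
          exact le_trans (by linarith) (le_abs_self _)
      norm_num at h11
      linarith
    rw [← hw, h12]
  have h3 : ∀ v w, (std.c v : std.bar) = std.c w ↔ v = w := fun v w => by
    constructor
    · intro e
      have h4 := cc_inj std e
      have h5 := std_dist v w
      rw [h4, dist_self] at h5
      have h6 := abs_eq_zero.1 h5.symm
      exact_mod_cast sub_eq_zero.1 h6
    · rintro rfl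
      rfl
  have h4 : ∀ n, K.c (2 * n) = K.c (2 * n + 1) ↔ ¬ halt n = true := by
    intro n
    have h5 : K.c (2 * n) = K.c (2 * n + 1) ↔ pts h (2 * n) = pts h (2 * n + 1) := by
      constructor
      · intro e
        exact congrArg Subtype.val e
      · intro e
        exact Subtype.ext e
    have h6 : pts h (2 * n) = n * 2 := by
      unfold pts
      have e1 : 2 * n / 2 = n := by omega
      have e2 : ¬ (2 * n % 2 = 1) := by omega
      rw [e1, if_neg e2, add_zero]
    have h7 : pts h (2 * n + 1) = n * 2 + del h n := by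
      unfold pts
      have e1 : (2 * n + 1) / 2 = n := by omega
      have e2 : (2 * n + 1) % 2 = 1 := by omega
      rw [e1, if_pos e2]
    rw [h5, h6, h7, eh, ← del_pos h, not_not]
    constructor
    · intro e
      linarith
    · intro e
      rw [e, add_zero]
  have h5 : ∀ n v w, V Φ (2 * n, v) → V Φ (2 * n + 1, w) → (halt n = true ↔ v ≠ w) := by
    intro n v w hv hw
    have e1 := h2 _ _ hv
    have e2 := h2 _ _ hw
    rw [Ne, ← h3, ← e1, ← e2, F.injective.eq_iff, ← not_iff_not, ← h4, not_not]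
    exact ⟨fun e => by rw [e], fun e => cc_inj K e⟩
  have h6 : SI B fun x : ℕ × Bool => ∃ y : ℕ × ℕ, V Φ (2 * x.1, y.1) ∧ V Φ (2 * x.1 + 1, y.2) ∧
      decide (y.1 ≠ y.2) = x.2 := by
    refine SI.ex (p := fun (x : ℕ × Bool) (y : ℕ × ℕ) => V Φ (2 * x.1, y.1) ∧
      V Φ (2 * x.1 + 1, y.2) ∧ decide (y.1 ≠ y.2) = x.2) (SI.and ?_ (SI.and ?_ ?_))
    · exact (si_V hΦ).comp (f := fun z : (ℕ × Bool) × (ℕ × ℕ) => (2 * z.1.1, z.2.1))
        ((Primrec.nat_mul.comp (Primrec.const 2) (Primrec.fst.comp Primrec.fst)).pair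
          (Primrec.fst.comp Primrec.snd))
    · exact (si_V hΦ).comp (f := fun z : (ℕ × Bool) × (ℕ × ℕ) => (2 * z.1.1 + 1, z.2.2))
        ((Primrec.succ.comp (Primrec.nat_mul.comp (Primrec.const 2)
          (Primrec.fst.comp Primrec.fst))).pair (Primrec.snd.comp Primrec.snd))
    · refine SI.of_prim (Primrec.eq.comp ?_ (Primrec.snd.comp Primrec.fst))
      exact (PrimrecPred.not (Primrec.eq.comp (Primrec.fst.comp Primrec.snd)
        (Primrec.snd.comp Primrec.snd))).decide
  refine Helper227.tLe_iff_SI.2 (h6.of_eq ?_)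
  rintro ⟨n, b⟩
  simp only
  constructor
  · rintro ⟨⟨v, w⟩, hv, hw, e⟩
    simp only at hv hw e
    have h7 := h5 n v w hv hw
    rw [← e]
    by_cases h8 : v = w
    · simp only [h8, ne_eq, not_true_eq_false, iff_false, Bool.not_eq_true] at h7
      simp [h7, h8]
    · have : halt n = true := h7.2 h8
      simp [this, h8]
  · intro e
    obtain ⟨v, hv⟩ := h1 (2 * n)
    obtain ⟨w, hw⟩ := h1 (2 * n + 1)
    refine ⟨(v, w), hv, hw, ?_⟩
    have h7 := h5 n v w hv hw
    simp only
    rw [← e]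
    by_cases h8 : v = w
    · simp only [h8, ne_eq, not_true_eq_false, iff_false, Bool.not_eq_true] at h7
      simp [h7, h8]
    · have : halt n = true := h7.2 h8
      simp [this, h8]

/-- The halting set is c.e. and not computable, the countable discrete space is a computable Polish
space, and its degree of topological categoricity is the degree of the halting set. -/
theorem result : REPred (fun n => halt n = true) ∧ ¬ Computable halt ∧
    PolishSpace ℕ ∧ IsComputablePolish ℕ ∧ IsDegreeOfCategoricity halt ℕ :=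
  ⟨halt_re, halt_not_computable, inferInstance, ⟨std, std_homeo⟩, categorical_halt ℕ,
    fun _ hB => lower hB⟩

end Pool.Agent.Results.MP_55a818_lc.DiscreteSpace
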